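import Pool.Agent.H85.TG.Ker

/-!
# Times with live windows: monotonicity (MON)
-/

set_option autoImplicit false

namespace Pool.KA

open Finset Real
open Pool.Agent.H49.Ent Pool.Agent.H32.Dense Pool.STK

theorem div_le_div_add_one34 {x y d : ℕ} (hd : 0 < d) (h : x ≤ y + 1) : x / d ≤ y / d + 1 := by
  calc x / d ≤ (y + d) / d := Nat.div_le_div_right (by omega)
    _ = y / d + 1 := by rw [Nat.add_div_right y hd]

/-- The neighbours of a smaller subwindow. -/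
theorem pn_anti34 {μ : ℕ → ℝ} (h : ∀ t, 0 ≤ μ t) (J t v : ℕ) {K K' : ℕ} (hK : K ≤ K')
    (hv : v + K' ≤ J) : pn μ J v K' t ≤ pn μ J v K t := by
  classical
  obtain ⟨b, hb⟩ : ∃ b, b = t / 2 ^ (J - v) := ⟨_, rfl⟩
  obtain ⟨D, hD⟩ : ∃ D, D = K' - K := ⟨_, rfl⟩
  have hpow : 2 ^ K' = 2 ^ K * 2 ^ D := by
    rw [← pow_add, hD]
    congr 1
    omega
  have hJ : J - (v + K) = J - (v + K') + D := by omega
  have hdiv : t / 2 ^ (J - (v + K)) = t / 2 ^ (J - (v + K')) / 2 ^ D := by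
    rw [Nat.div_div_eq_div_mul, ← pow_add, hJ]
  unfold pn
  rw [← hb, hpow, sum_range_blocks]
  refine Finset.sum_le_sum fun j _ => ?_
  have hx : ∀ i : ℕ, b * (2 ^ K * 2 ^ D) + (j * 2 ^ D + i) = (b * 2 ^ K + j) * 2 ^ D + i :=
    fun i => by ring
  have hquot : ∀ i ∈ range (2 ^ D), ((b * 2 ^ K + j) * 2 ^ D + i) / 2 ^ D = b * 2 ^ K + j := by
    intro i hi
    rw [Finset.mem_range] at hi
    rw [Nat.add_comm, Nat.add_mul_div_right _ _ (by positivity), Nat.div_eq_of_lt hi,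
      Nat.zero_add]
  by_cases hQ : b * 2 ^ K + j ≤ t / 2 ^ (J - (v + K)) + 1 ∧
      t / 2 ^ (J - (v + K)) ≤ b * 2 ^ K + j + 1
  · rw [if_pos hQ, hJ, ← lowk_lowk]
    have e : lowk (lowk μ (J - (v + K'))) D (b * 2 ^ K + j) =
        ∑ i ∈ range (2 ^ D), lowk μ (J - (v + K')) ((b * 2 ^ K + j) * 2 ^ D + i) := rfl
    rw [e]
    refine Finset.sum_le_sum fun i _ => ?_
    rw [hx i]
    split_ifs
    · exact le_rfl
    · exact lowk_nonneg h _ _
  · rw [if_neg hQ]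
    refine le_of_eq (Finset.sum_eq_zero fun i hi => ?_)
    rw [hx i, if_neg]
    rintro ⟨h1, h2⟩
    refine hQ ⟨?_, ?_⟩
    · have h3 := div_le_div_add_one34 (d := 2 ^ D) (by positivity) h1
      rw [hquot i hi] at h3
      rw [hdiv]
      exact h3
    · have h3 := div_le_div_add_one34 (d := 2 ^ D) (by positivity) h2
      rw [hquot i hi] at h3
      rw [hdiv]
      exact h3

/-- More digits and a larger threshold: fewer bad windows. -/
theorem nbad_mono34 {μ : ℕ → ℝ} (h : ∀ t, 0 ≤ μ t) (J : ℕ) {K K' : ℕ} (hK : K ≤ K') {η η' : ℝ}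
    (hη : η ≤ η') (t a b : ℕ) : nbad μ J K' η' t a b ≤ nbad μ J K η t a b := by
  classical
  unfold nbad
  refine Finset.card_le_card fun v hv => ?_
  rw [Finset.mem_filter] at hv ⊢
  obtain ⟨h1, h2, h3⟩ := hv
  refine ⟨h1, by omega, ?_⟩
  calc η * pm μ J v t ≤ η' * pm μ J v t := mul_le_mul_of_nonneg_right hη (pm_nonneg h J v t)
    _ < pn μ J v K' t := h3
    _ ≤ pn μ J v K t := pn_anti34 h J t v hK h2

theorem live_mono34 {m J : ℕ} {F : Fam m J} {μ : F.Ω → ℕ → ℝ} (hK : F.Ker μ) {K K' : ℕ}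
    (h : K ≤ K') {η η' r r' n n' : ℝ} (hη : η ≤ η') (hr : r ≤ r') (hn : n ≤ n')
    (hL : F.Live μ K η r n) : F.Live μ K' η' r' n' := fun ω hω a b hab hb => by
  have h1 : (nbad (μ ω) J K' η' (F.T ω) a b : ℝ) ≤ nbad (μ ω) J K η (F.T ω) a b := by
    exact_mod_cast nbad_mono34 (hK.nonneg ω) J h hη (F.T ω) a b
  have h2 := hL ω hω a b hab hb
  have h3 : (0 : ℝ) ≤ (b : ℝ) - a := by
    have : (a : ℝ) ≤ b := by exact_mod_cast hab
    linarith
  have h4 : r * ((b : ℝ) - a) ≤ r' * ((b : ℝ) - a) := mul_le_mul_of_nonneg_right hr h3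
  linarith

/-- **Row MON.** -/
theorem tg_mon : TGMStmt := by
  intro m J F s K K' η η' r r' n n' e e' hK hη hr hn he
  refine ⟨?_, ?_⟩
  · rintro ⟨μ, h1, h2, h3, h4⟩
    exact ⟨μ, h1, h2, live_mono34 h1 hK hη hr hn h3, h4.trans he⟩
  · rintro ⟨μ, h1, h2, h3, h4, M, h5⟩
    exact ⟨μ, h1, h2, live_mono34 h1 hK hη hr hn h3, h4.trans he, M, fun ω hω => (h5 ω hω).trans he⟩

end Pool.KA
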