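import Pool.Agent.H34.KA.TYA
import Pool.Agent.H85.TG.Ker

/-!
# Times with live windows: types (TYP)
-/

set_option autoImplicit false

namespace Pool.KA

open Finset Real
open Pool.Agent.H49.Ent Pool.Agent.H32.Dense Pool.STK

/-- The mean is the average of the conditional means. -/
theorem Ex_sum_cond34 {Ω κ : Type} [Fintype Ω] [Fintype κ] {p : Ω → ℝ} (hp : ∀ ω, 0 ≤ p ω)
    (A : Ω → κ) (f : Ω → ℝ) : Ex p f = ∑ a, law p A a * Ex (cond p A a) f := by
  classical
  have h1 : ∀ a, law p A a * Ex (cond p A a) f = ∑ ω, if A ω = a then p ω * f ω else 0 := by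
    intro a
    unfold Ex
    rw [Finset.mul_sum]
    refine Finset.sum_congr rfl fun ω _ => ?_
    unfold Pool.Agent.H49.Ent.cond
    split_ifs with h
    · by_cases h0 : p ω = 0
      · rw [h0]
        ring
      · have hω : 0 < p ω := lt_of_le_of_ne (hp ω) (Ne.symm h0)
        have h2 : 0 < law p A a := by rw [← h]; exact law_pos hp A hω
        field_simp
    · ring
  rw [Finset.sum_congr rfl fun a _ => h1 a, Finset.sum_comm]
  unfold Ex
  refine Finset.sum_congr rfl fun ω _ => ?_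
  rw [Finset.sum_ite_eq univ (A ω), if_pos (Finset.mem_univ (A ω))]

/-- A kernel of a family is a kernel of its restrictions. -/
theorem ker_res34 {m J : ℕ} {F : Fam m J} {μ : F.Ω → ℕ → ℝ} (h : F.Ker μ) {κ : Type}
    (A : F.Ω → κ) (a : κ) (ha : IsLaw (cond F.p A a)) : (F.res A a ha).Ker μ := by
  have hpos : ∀ ω, 0 < cond F.p A a ω → 0 < F.p ω := fun ω hω =>
    ((cond_pos_iff F.isLaw.nonneg A a ω).1 hω).1
  exact ⟨h.nonneg, h.sum, fun ω hω => h.pos ω (hpos ω hω),
    fun ω ω' hω hω' e => h.det ω ω' (hpos ω hω) (hpos ω' hω') e⟩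

/-- The relative entropy is not negative. -/
theorem ker_kl_nonneg34 {m J : ℕ} {F : Fam m J} {μ : F.Ω → ℕ → ℝ} (h : F.Ker μ) :
    0 ≤ F.kl μ := by
  have h1 := CH_le_ker F.isLaw.nonneg F.isLaw.sum_one F.T (fun ω => (F.l ω, F.Z ω))
    (fun ω t => if t < 2 ^ J then μ ω t else 0) ?_ ?_ ?_ ?_
  · have e1 : Ex F.p (fun ω => -Real.log (if F.T ω < 2 ^ J then μ ω (F.T ω) else 0)) =
        Ex F.p (fun ω => -Real.log (μ ω (F.T ω))) :=
      Ex_congr_pos F.isLaw.nonneg fun ω _ => by rw [if_pos (F.tim ω)]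
    unfold Fam.kl
    rw [e1] at h1
    linarith
  · intro ω ω' hω hω' e
    have h2 : μ ω = μ ω' := h.det ω ω' hω hω' e
    funext t
    simp only [h2]
  · intro ω hω
    simp only [if_pos (F.tim ω)]
    exact h.pos ω hω
  · intro ω t
    split_ifs
    · exact h.nonneg ω t
    · exact le_rfl
  · intro ω _ G
    rw [← Finset.sum_filter]
    refine (Finset.sum_le_sum_of_subset_of_nonneg (t := range (2 ^ J)) ?_
      fun t _ _ => h.nonneg ω t).trans (h.sum ω)
    intro t ht
    exact Finset.mem_range.2 (Finset.mem_filter.1 ht).2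

/-- **Row TYP.** -/
theorem tg_typ : TGTStmt := by
  classical
  intro m J F s κ _ A K η r n e hTG a ha
  obtain ⟨μ, hK, hs, hL, hkl⟩ := hTG
  have hp := F.isLaw.nonneg
  have hlaw : ∀ b, law F.p A b ≠ 0 → IsLaw (cond F.p A b) := fun b hb =>
    ⟨cond_nonneg hp A b, sum_cond F.p A hb⟩
  have hlaw0 : ∀ b, 0 ≤ law F.p A b := fun b => law_nonneg hp A b
  have hpos : ∀ ω, 0 < cond F.p A a ω → 0 < F.p ω := fun ω hω =>
    ((cond_pos_iff hp A a ω).1 hω).1
  refine ⟨hlaw a ha.ne', μ, ker_res34 hK A a _, ?_, fun ω hω => hL ω (hpos ω hω), ?_⟩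
  · intro h ω ω' hω hω' e
    exact hs h ω ω' (hpos ω hω) (hpos ω' hω') e
  · -- the relative entropies of the types
    obtain ⟨g, hg⟩ : ∃ g : κ → ℝ, g = fun b => Ex (cond F.p A b) (fun ω =>
        -Real.log (μ ω (F.T ω))) - CH (cond F.p A b) F.T (fun ω => (F.l ω, F.Z ω)) := ⟨_, rfl⟩
    have hg0 : ∀ b, 0 ≤ law F.p A b * g b := by
      intro b
      rcases (hlaw0 b).eq_or_lt with hb | hb
      · rw [← hb, zero_mul]
      · refine mul_nonneg hb.le ?_
        have h1 := ker_kl_nonneg34 (ker_res34 hK A b (hlaw b hb.ne'))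
        rw [hg]
        exact h1
    have h1 : ∑ b, law F.p A b * g b = Ex F.p (fun ω => -Real.log (μ ω (F.T ω))) -
        CH F.p F.T (fun ω => (A ω, (F.l ω, F.Z ω))) := by
      rw [tya_CH_sum hp, Ex_sum_cond34 hp A, ← Finset.sum_sub_distrib]
      refine Finset.sum_congr rfl fun b _ => ?_
      rw [hg]
      ring
    have h2 := (tya_CH_le F.isLaw F.T (fun ω => (F.l ω, F.Z ω)) A).2
    have h3 : law F.p A a * g a ≤ ∑ b, law F.p A b * g b :=
      Finset.single_le_sum (f := fun b => law F.p A b * g b) (fun b _ => hg0 b)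
        (Finset.mem_univ a)
    have h4 : (F.res A a (hlaw a ha.ne')).kl μ = g a := by
      rw [hg]
      rfl
    rw [h4, le_div_iff₀ ha]
    unfold Fam.kl at hkl
    linarith

end Pool.KA
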